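import Mathlib

set_option autoImplicit false

namespace Pool.Agent.Results.MP_43be50_gt.Main

open Set Filter TopologicalSpace

section
variable (Y Z : Type) [TopologicalSpace Y] [TopologicalSpace Z]

def OZ : Set (Set Y) := {W | ∃ (f : C(Y, Z)) (U : Set Z), IsOpen U ∧ W = f ⁻¹' U}

abbrev co (𝒦 : Set (Set Y)) : TopologicalSpace C(Y, Z) :=
  generateFrom {S | ∃ K ∈ 𝒦, ∃ U, IsOpen U ∧ S = {f : C(Y, Z) | MapsTo f K U}}

abbrev gen (P : Set (Set (Set Y))) : TopologicalSpace C(Y, Z) :=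
  generateFrom {S | ∃ H ∈ P, ∃ U, IsOpen U ∧ S = {f : C(Y, Z) | f ⁻¹' U ∈ H}}

def Up (𝒪 H : Set (Set Y)) : Prop :=
  (∀ W ∈ H, IsOpen W) ∧ ∀ W ∈ H, W ∈ 𝒪 → ∀ V, IsOpen V → W ⊆ V → V ∈ H

def Sc (𝒪 : Set (Set Y)) : Set (Set (Set Y)) :=
  {H | Up Y 𝒪 H ∧ ∀ 𝒞 ⊆ 𝒪, ⋃₀ 𝒞 ∈ H → ∃ ℱ ⊆ 𝒞, ℱ.Finite ∧ ⋃₀ ℱ ∈ H}

def SSc (𝒪 : Set (Set Y)) : Set (Set (Set Y)) :=
  {H | Up Y 𝒪 H ∧ ∀ 𝒞 ⊆ 𝒪, ⋃₀ 𝒞 = univ → ∃ ℱ ⊆ 𝒞, ℱ.Finite ∧ ⋃₀ ℱ ∈ H}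

end

def Y : Type := ℕ ⊕ {A : Set ℕ // A ∉ hyperfilter ℕ}

def z : Y := .inr ⟨∅, Ultrafilter.empty_notMem⟩

instance : TopologicalSpace Y where
  IsOpen U := ∀ A, .inr A ∈ U → z ∈ U ∧ {n ∈ A.1 | .inl n ∉ U}.Finite
  isOpen_univ := by simp
  isOpen_inter U V h h' A hA := ⟨⟨(h A hA.1).1, (h' A hA.2).1⟩,
    ((h A hA.1).2.union (h' A hA.2).2).subset fun n hn => by
      by_contra h1
      exact hn.2 ⟨by_contra fun h2 => h1 (Or.inl ⟨hn.1, h2⟩),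
        by_contra fun h2 => h1 (Or.inr ⟨hn.1, h2⟩)⟩⟩
  isOpen_sUnion S h := fun A ⟨U, h1, h2⟩ => ⟨⟨U, h1, (h U h1 A h2).1⟩,
    (h U h1 A h2).2.subset fun _ hn => ⟨hn.1, fun h3 => hn.2 ⟨U, h1, h3⟩⟩⟩

def W (A : {A : Set ℕ // A ∉ hyperfilter ℕ}) : Set Y :=
  {y | y = .inr A ∨ y = z ∨ ∃ n ∈ A.1, y = .inl n}

lemma W_open : range W ⊆ {U | IsOpen U} := by
  rintro _ ⟨A, rfl⟩ B h
  refine ⟨Or.inr (Or.inl rfl), finite_empty.subset fun n hn => ?_⟩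
  obtain h | h | ⟨_, -, h⟩ := h
  · exact hn.2 (Or.inr (Or.inr ⟨n, Sum.inr.inj h ▸ hn.1, rfl⟩))
  · exact (Sum.inr.inj h ▸ hn.1 : n ∈ (⟨∅, Ultrafilter.empty_notMem⟩ :
      {A : Set ℕ // A ∉ hyperfilter ℕ}).1)
  · cases h

lemma W_cover : ⋃₀ range W = univ := eq_univ_of_forall fun
  | .inl n => ⟨_, ⟨⟨{n}, notMem_hyperfilter_of_finite (finite_singleton n)⟩, rfl⟩,
      Or.inr (Or.inr ⟨n, rfl, rfl⟩)⟩
  | .inr A => ⟨_, ⟨A, rfl⟩, Or.inl rfl⟩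

lemma W_ev {ℱ : Set (Set Y)} (h : ℱ ⊆ range W) (h' : ℱ.Finite) :
    ∀ᶠ n in hyperfilter ℕ, ⋃₀ ℱ ⊆ {.inl n}ᶜ := by
  simp only [sUnion_subset_iff]
  refine (eventually_all_finite h').2 fun U hU => ?_
  obtain ⟨A, rfl⟩ := h hU
  filter_upwards [Ultrafilter.compl_mem_iff_notMem.2 A.2] with n hn
  rintro _ (h | h | ⟨m, h1, h⟩) rfl
  exacts [(nomatch h), (nomatch h), hn (Sum.inl.inj h ▸ h1)]

lemma clopen (n : ℕ) : IsClopen ({.inl n} : Set Y) :=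
  ⟨⟨fun _ _ => ⟨nofun, (finite_singleton n).subset fun _ h => Sum.inl.inj (not_not.1 h.2)⟩⟩,
    fun _ h => nomatch h⟩

lemma cmp (𝒞 : Set (Set Y)) (h : 𝒞 ⊆ OZ Y Bool) (h' : ⋃₀ 𝒞 = univ) :
    ∃ ℱ ⊆ 𝒞, ℱ.Finite ∧ ⋃₀ ℱ = univ := by
  choose g h1 h2 using eq_univ_iff_forall.1 h'
  obtain ⟨f, U, -, h3⟩ := h (h1 z)
  have h4 : IsClopen (g z) := h3 ▸ (isClopen_discrete U).preimage f.continuous
  have h5 (A) : .inr A ∈ g z := by_contra fun h5 => (h4.1.1 A h5).1 (h2 z)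
  have h6 : {n | .inl n ∉ g z}.Finite := by_contra fun h6 => by
    obtain ⟨A, B, h7, h8, h9⟩ := Infinite.exists_union_disjoint_cardinal_eq_of_infinite h6
    have k (C : Set ℕ) (hC : C ⊆ A ∪ B) (h : C ∉ hyperfilter ℕ) : C.Finite :=
      (h4.2 ⟨C, h⟩ (h5 _)).2.subset fun n hn => ⟨hn, (h7 ▸ hC hn : n ∈ {n | .inl n ∉ g z})⟩
    have k' : A.Finite ↔ B.Finite := by
      rw [← Cardinal.lt_aleph0_iff_set_finite, h9, Cardinal.lt_aleph0_iff_set_finite]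
    have : A.Finite := by_contra fun hA => Ultrafilter.empty_notMem (h8.inter_eq ▸ inter_mem
      (by_contra fun h => hA (k A subset_union_left h))
      (by_contra fun h => hA (k'.2 (k B subset_union_right h))) : ∅ ∈ hyperfilter ℕ)
    exact h6 (h7 ▸ this.union (k'.1 this))
  refine ⟨insert (g z) ((fun n => g (.inl n)) '' _), insert_subset (h1 z)
    (image_subset_iff.2 fun _ _ => h1 _), (h6.image _).insert _, eq_univ_of_forall fun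
      | .inl n => by_contra fun h7 => h7 ⟨_, Or.inr ⟨n, fun h8 => h7 ⟨_, Or.inl rfl, h8⟩, rfl⟩, h2 _⟩
      | .inr A => ⟨_, Or.inl rfl, h5 A⟩⟩

open Classical in
noncomputable def bump (n : ℕ) : C(Y, Bool) :=
  ⟨fun y => decide (y ≠ .inl n), (IsLocallyConstant.iff_continuous _).1
    (IsLocallyConstant.iff_isOpen_fiber.2 fun b => by
      cases b
      · convert (clopen n).2
        ext
        simp
      · convert (clopen n).1.1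
        ext
        simp)⟩

open Classical in
lemma bump_eq {n : ℕ} {y : Y} (h : y ∈ ({.inl n}ᶜ : Set Y)) : bump n y = true := decide_eq_true h

lemma ne_of {𝒮 𝒯 : Set (Set C(Y, Bool))} (h : {f | ∀ y, f y = true} ∈ 𝒮)
    (h' : ∀ S ∈ 𝒯, .const Y true ∈ S → ∀ᶠ n in hyperfilter ℕ, bump n ∈ S) :
    generateFrom 𝒮 ≠ generateFrom 𝒯 := fun e => by
  classical
  have h1 := tendsto_nhds_generateFrom_iff.2 h'
  rw [← e] at h1
  obtain ⟨n, hn⟩ := Eventually.exists (tendsto_nhds_generateFrom_iff.1 h1 _ h fun _ => rfl)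
  exact of_decide_eq_true (hn (.inl n)) rfl

lemma ev {H : Set (Set Y)} (h : Up Y {W | IsOpen W} H)
    (h' : univ ∈ H → ∃ ℱ ⊆ range W, ℱ.Finite ∧ ⋃₀ ℱ ∈ H) {U : Set Bool}
    (hU : ContinuousMap.const Y true ⁻¹' U ∈ H) : ∀ᶠ n in hyperfilter ℕ, bump n ⁻¹' U ∈ H := by
  have k (n : ℕ) := (isOpen_discrete U).preimage (bump n).continuous
  by_cases h1 : true ∈ U
  · obtain ⟨ℱ, h2, h3, h4⟩ := h' (h.2 _ hU (h.1 _ hU) _ isOpen_univ (subset_univ _))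
    exact (W_ev h2 h3).mono fun n hn => h.2 _ h4 (h.1 _ h4) _ (k n) fun y hy =>
      (bump_eq (hn hy) ▸ h1 : bump n y ∈ U)
  · exact .of_forall fun n => h.2 _ hU (h.1 _ hU) _ (k n) fun _ hy => (h1 hy).elim

theorem result : ∃ (Y Z : Type) (_ : TopologicalSpace Y) (_ : TopologicalSpace Z),
    co Y Z {K | @IsCompact Y (generateFrom (OZ Y Z)) K} ≠ co Y Z {K | IsCompact K} ∧
    gen Y Z (Sc Y (OZ Y Z)) ≠ gen Y Z (Sc Y {W | IsOpen W}) ∧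
    gen Y Z (SSc Y (OZ Y Z)) ≠ gen Y Z (SSc Y {W | IsOpen W}) := by
  have hu : Up Y (OZ Y Bool) {univ} :=
    ⟨fun _ h => h ▸ isOpen_univ, fun _ h _ _ _ h' => univ_subset_iff.1 (h ▸ h')⟩
  have he : {f : C(Y, Bool) | ∀ y, f y = true} =
      {f : C(Y, Bool) | f ⁻¹' {true} ∈ ({univ} : Set (Set Y))} :=
    Set.ext fun f => eq_univ_iff_forall.symm
  refine ⟨Y, Bool, inferInstance, inferInstance, ne_of ⟨univ, @isCompact_generateFrom _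
    (generateFrom _) _ rfl _ fun P h h' => (cmp P h (univ_subset_iff.1 h')).imp fun _ h =>
      ⟨h.1, h.2.1, h.2.2.ge⟩, {true}, isOpen_discrete _, by simp [MapsTo]⟩ ?_,
    ne_of ⟨_, ⟨hu, cmp⟩, _, isOpen_discrete _, he⟩ ?_,
    ne_of ⟨_, ⟨hu, cmp⟩, _, isOpen_discrete _, he⟩ ?_⟩
  · rintro _ ⟨K, h1, U, -, rfl⟩ h2
    obtain ⟨ℱ, h3, h4, h5⟩ := h1.elim_finite_subcover_image (b := range W) (c := fun V => V) W_open
      (by rw [← sUnion_eq_biUnion, W_cover]; exact subset_univ _)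
    exact (W_ev h3 h4).mono fun n hn y hy =>
      (bump_eq (hn (sUnion_eq_biUnion ▸ h5 hy)) ▸ h2 hy : bump n y ∈ U)
  · rintro _ ⟨H, h1, U, -, rfl⟩ h2
    exact ev h1.1 (fun h => h1.2 _ W_open (W_cover ▸ h)) h2
  · rintro _ ⟨H, h1, U, -, rfl⟩ h2
    exact ev h1.1 (fun _ => h1.2 _ W_open W_cover) h2

end Pool.Agent.Results.MP_43be50_gt.Main
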